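import Mathlib
import Pool.Agent.W295.NL.Stm

set_option autoImplicit false

/-!
Project NL, part OM: the odd step for ladder cycles of Moebius type.
-/

namespace Pool.Agent.W449.NL.OM

open Pool.Agent.W295.NL

/-- weights of the colours -/
def w (q : ℕ) (a : Fin 3) : ZMod q := if a = 2 then -2 else 1

theorem w_sum (q : ℕ) (a b c : Fin 3) (h1 : a ≠ b) (h2 : c ≠ a) (h3 : c ≠ b) :
    w q a + w q b + w q c = 0 := by
  unfold w
  fin_cases a <;> fin_cases b <;> fin_cases c <;> simp_all <;> ring

theorem w_unit (q : ℕ) (hq : Odd q) (a : Fin 3) (k : ℕ) (h : (k : ZMod q) * w q a = 0) :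
    q ∣ k := by
  unfold w at h
  by_cases ha : a = 2
  · rw [if_pos ha] at h
    have h2 : ((2 * k : ℕ) : ZMod q) = 0 := by
      push_cast
      linear_combination (-1 : ZMod q) * h
    rw [ZMod.natCast_eq_zero_iff] at h2
    have hc : Nat.Coprime q 2 := by
      rw [Nat.coprime_two_right]
      exact hq
    exact hc.dvd_of_dvd_mul_left h2
  · rw [if_neg ha, mul_one] at h
    rwa [ZMod.natCast_eq_zero_iff] at h

/-- values on the three colours -/
def S {q : ℕ} (κ : ℕ → Fin 3) (A B : ℕ → ZMod q) (a : Fin 3) (t : ℕ) : ZMod q :=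
  if a = κ t then A t else if a = κ (t + 1) then A (t + 1) else B t

theorem S_sum {q : ℕ} (κ : ℕ → Fin 3) (A B : ℕ → ZMod q) (t : ℕ) (h : κ t ≠ κ (t + 1)) :
    S κ A B 0 t + S κ A B 1 t + S κ A B 2 t = A t + A (t + 1) + B t := by
  unfold S
  generalize κ t = x at h ⊢
  generalize κ (t + 1) = y at h ⊢
  fin_cases x <;> fin_cases y <;> simp_all <;> ring

theorem main : S_OM := by
  intro Q L n q hn hn0 hq X κ hC hκn hX f A hA hA2
  have hq0 : 0 < q := hq.pos
  obtain ⟨B, hB⟩ : ∃ B : ℕ → ZMod q, B = fun t => -f (X 0 t) (X 1 t) - A t - A (t + 1) := ⟨_, rfl⟩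
  have hw : ∀ t, A (t + 2 * n) = A t + w q (κ t) := hA
  have Xper : ∀ (k : ℕ) a t, X a (t + 2 * n * k) = X a t := by
    intro k
    induction k with
    | zero => intro a t; simp
    | succ k ih =>
      intro a t
      have : t + 2 * n * (k + 1) = (t + 2 * n * k) + 2 * n := by ring
      rw [this, hC.per, ih]
  have κper : ∀ (k : ℕ) t, κ (t + 2 * n * k) = κ t := by
    intro k
    induction k with
    | zero => intro t; simp
    | succ k ih =>
      intro t
      have : t + 2 * n * (k + 1) = (t + 2 * n * k) + 2 * n := by ring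
      rw [this, hC.kper, ih]
  have κn : ∀ (k : ℕ) t, κ (t + n * k) = κ t := by
    intro k
    induction k with
    | zero => intro t; simp
    | succ k ih =>
      intro t
      have : t + n * (k + 1) = (t + n * k) + n := by ring
      rw [this, hκn, ih]
  have κmod : ∀ t t', t' ≡ t [MOD 2 * n] → κ t' = κ t := by
    intro t t' h
    rcases le_total t t' with hle | hle
    · obtain ⟨k, hk⟩ := (Nat.modEq_iff_dvd' hle).1 h.symm
      have : t' = t + 2 * n * k := by omega
      rw [this, κper]
    · obtain ⟨k, hk⟩ := (Nat.modEq_iff_dvd' hle).1 h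
      have : t = t' + 2 * n * k := by omega
      rw [this, κper]
  have Sstep : ∀ a t, S κ A B a (t + 2 * n) = S κ A B a t + w q a := by
    intro a t
    have e1 : t + 2 * n + 1 = t + 1 + 2 * n := by ring
    unfold S
    rw [hC.kper, e1, hC.kper]
    by_cases h1 : a = κ t
    · rw [if_pos h1, if_pos h1, hw, h1]
    · rw [if_neg h1, if_neg h1]
      by_cases h2 : a = κ (t + 1)
      · rw [if_pos h2, if_pos h2, hw, h2]
      · rw [if_neg h2, if_neg h2, hB]
        have h3 := w_sum q (κ t) (κ (t + 1)) a (hC.kne t) h1 h2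
        have h4 := hw t
        have h5 := hw (t + 1)
        simp only [hC.per, e1]
        rw [h4, h5]
        linear_combination (-1 : ZMod q) * h3
  have Sper : ∀ (k : ℕ) a t, S κ A B a (t + 2 * n * k) = S κ A B a t + (k : ZMod q) * w q a := by
    intro k
    induction k with
    | zero => intro a t; simp
    | succ k ih =>
      intro a t
      have : t + 2 * n * (k + 1) = (t + 2 * n * k) + 2 * n := by ring
      rw [this, Sstep, ih]
      push_cast
      ring
  have key : ∀ a t t', t' ≡ t [MOD 2 * n] → S κ A B a t' = S κ A B a t →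
      t' ≡ t [MOD 2 * (n * q)] := by
    intro a t t' h hS
    rcases le_total t t' with hle | hle
    · obtain ⟨k, hk⟩ := (Nat.modEq_iff_dvd' hle).1 h.symm
      have e : t' = t + 2 * n * k := by omega
      rw [e, Sper] at hS
      have h0 : (k : ZMod q) * w q a = 0 := by
        have := hS
        linear_combination this
      obtain ⟨j, hj⟩ := w_unit q hq a k h0
      refine ((Nat.modEq_iff_dvd' hle).2 ⟨j, ?_⟩).symm
      rw [hk, hj]
      ring
    · obtain ⟨k, hk⟩ := (Nat.modEq_iff_dvd' hle).1 h
      have e : t = t' + 2 * n * k := by omega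
      rw [e, Sper] at hS
      have h0 : (k : ZMod q) * w q a = 0 := by
        have := hS
        linear_combination (-1 : ZMod q) * this
      obtain ⟨j, hj⟩ := w_unit q hq a k h0
      refine (Nat.modEq_iff_dvd' hle).2 ⟨j, ?_⟩
      rw [hk, hj]
      ring
  have Sk : ∀ t, S κ A B (κ t) t = A t := fun t => by unfold S; rw [if_pos rfl]
  have Sk1 : ∀ t, S κ A B (κ (t + 1)) t = A (t + 1) := fun t => by
    unfold S
    rw [if_neg (hC.kne t).symm, if_pos rfl]
  have nq : ∃ p, n * q = n + 2 * n * p := by
    obtain ⟨p, hp⟩ := hq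
    refine ⟨p, ?_⟩
    rw [hp]
    ring
  have Bnq : ∀ t, B (t + n * q) = B t := by
    intro t
    have h1 := hA2 t
    obtain ⟨p, hp⟩ := nq
    have h2 : ∀ a, X a (t + n * q) = X a (t + n) := by
      intro a
      rw [hp, ← add_assoc, Xper]
    have e1 : t + n * q + 1 = t + 1 + n * q := by ring
    rw [hB]
    simp only [h2, e1]
    linear_combination (-1 : ZMod q) * h1
  refine ⟨hn.mul_right q, Nat.mul_pos hn0 hq0,
    fun a t => (X a t, if a = 2 then -S κ A B a t else S κ A B a t), κ, ?_, κn q, ?_⟩
  · refine ⟨?_, ?_, ?_, hC.kne, ?_⟩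
    · intro a t
      have e : 2 * (n * q) = 2 * n * q := by ring
      simp only [e, Xper, Sper, ZMod.natCast_self, zero_mul, add_zero]
    · intro t
      have e : 2 * (n * q) = 2 * n * q := by ring
      rw [e, κper]
    · intro t
      have h1 := S_sum κ A B t (hC.kne t)
      have h2 : B t = -f (X 0 t) (X 1 t) - A t - A (t + 1) := by rw [hB]
      refine Prod.ext ?_ ?_
      · exact hC.sym t
      · change (if (2 : Fin 3) = 2 then -S κ A B 2 t else S κ A B 2 t) =
          (if (0 : Fin 3) = 2 then -S κ A B 0 t else S κ A B 0 t) +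
          (if (1 : Fin 3) = 2 then -S κ A B 1 t else S κ A B 1 t) + f (X 0 t) (X 1 t)
        have h01 : (0 : Fin 3) ≠ 2 := by decide
        have h12 : (1 : Fin 3) ≠ 2 := by decide
        rw [if_pos rfl, if_neg h01, if_neg h12]
        rw [h2] at h1
        linear_combination (-1 : ZMod q) * h1
    · intro t
      refine Prod.ext (hC.edge t) ?_
      simp only [Sk, Sk1]
  · intro a t t' h
    have hx : X a t = X a t' := congrArg Prod.fst h
    have hs : S κ A B a t = S κ A B a t' := by
      have h2 := congrArg Prod.snd h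
      simp only at h2
      by_cases ha : a = 2
      · rw [if_pos ha, if_pos ha] at h2
        exact neg_injective h2
      · rwa [if_neg ha, if_neg ha] at h2
    rcases hX a t t' hx with h1 | ⟨h1, h2⟩ | ⟨h1, h2⟩ | ⟨h1, h2, h3⟩
    · exact Or.inl (key a t t' h1 hs.symm)
    · refine Or.inr (Or.inl ⟨h1, key a (t + 1) t' h2 ?_⟩)
      rw [← hs, h1, Sk1, Sk]
    · refine Or.inr (Or.inr (Or.inl ⟨h1, ?_⟩))
      have hk : κ (t' + 1) = a := by rw [h1]; exact κmod t (t' + 1) h2
      refine key a t (t' + 1) h2 ?_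
      rw [hs]
      conv_lhs => rw [← hk]
      conv_rhs => rw [← hk]
      rw [Sk, Sk1]
    · refine Or.inr (Or.inr (Or.inr ⟨h1, h2, ?_⟩))
      have e : S κ A B a (t + n * q) = S κ A B a t := by
        unfold S
        have e1 : t + n * q + 1 = t + 1 + n * q := by ring
        rw [κn q t, e1, κn q (t + 1), if_neg h1, if_neg h2, if_neg h1, if_neg h2, Bnq]
      refine key a (t + n * q) t' ?_ ?_
      · obtain ⟨p, hp⟩ := nq
        have : t + n * q ≡ t + n [MOD 2 * n] := by
          rw [hp, ← add_assoc]
          exact Nat.ModEq.symm (Nat.modEq_of_dvd ⟨p, by push_cast; ring⟩)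
        exact h3.trans this.symm
      · rw [e, hs]

end Pool.Agent.W449.NL.OM
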